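import Mathlib
import Pool.Agent.R833.ST4

/-!
# Divisibility of Solomon-Terao Hilbert series does not imply divisibility of Poincare polynomials
-/

set_option autoImplicit false
set_option linter.unusedSectionVars false

namespace Pool.Agent.Results.MP_1e7c4a_ag.HilbertWithoutPoincare

open MvPolynomial Pool.Agent.R833 Pool.Agent.R833.Arr Pool.Agent.R833.Ex7 Pool.Agent.R833.HF
open Pool.Agent.R833.ST

/-- The form `f` is non-degenerate on the linear subspace `W`: the derivatives of its restriction
to `W` in the directions of `W` have no common zero on `W` other than the origin. -/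
def NonDegenerateOn {K : Type} [Field K] {l : ℕ} (f : MvPolynomial (Fin l) K)
    (W : Submodule K (Fin l → K)) : Prop :=
  ∀ w ∈ W, (∀ u ∈ W, ∑ j, u j * eval w (pderiv j f) = 0) → w = 0

/-- `η ∈ U_d(A)`. -/
def IsGeneric {K : Type} [Field K] {l n : ℕ} (A : Fin n → Fin l → K) (d : ℕ)
    (η : MvPolynomial (Fin l) K) : Prop :=
  η.IsHomogeneous d ∧ ∀ W ∈ flats A, NonDegenerateOn η W

/-- `P` is the Hilbert series of the Solomon-Terao algebra `S / {θ(η) : θ ∈ D(A)}`. -/
def IsHilbertSeries {K : Type} [Field K] {l n : ℕ} (A : Fin n → Fin l → K)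
    (η : MvPolynomial (Fin l) K) (P : Polynomial ℚ) : Prop :=
  ∀ i, P.coeff i = (hq (stIdeal A η) i : ℚ)

/-- `B` is the restriction `A^H` of `A` to its hyperplane `H` number `i₀`, where `H` is identified
with `K^l` by the linear parametrization `e`. -/
structure IsRestriction {K : Type} [Field K] {l n m : ℕ} (A : Fin n → Fin (l + 1) → K)
    (i₀ : Fin n) (e : (Fin l → K) →ₗ[K] (Fin (l + 1) → K)) (B : Fin m → Fin l → K) : Prop where
  /-- `e` is injective -/
  injective : Function.Injective e
  /-- its image is `H` -/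
  range_eq : LinearMap.range e = hyperplane (A i₀)
  /-- the hyperplanes of `B` are distinct -/
  arrangement : IsArrangement B
  /-- they are the intersections of `H` with the other hyperplanes of `A` -/
  planes : ∀ W, (∃ j, hyperplane (B j) = W) ↔ ∃ i, i ≠ i₀ ∧ (hyperplane (A i)).comap e = W

/-- The restriction `f ∘ e` of a polynomial. -/
noncomputable def restrictPoly {K : Type} [Field K] {l : ℕ}
    (e : (Fin l → K) →ₗ[K] (Fin (l + 1) → K)) (f : MvPolynomial (Fin (l + 1)) K) :
    MvPolynomial (Fin l) K :=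
  aeval (fun j => ∑ k, C (e (Pi.single k 1) j) * X k) f

section

variable {K : Type} [Field K] [CharZero K]

lemma arr6 : IsArrangement (A6 K) := by
  refine ⟨A6_ne, fun i j h => ?_⟩
  have h1 := (le_iff (K := K) (some (some (Sum.inl i))) (some (some (Sum.inl j)))).1 h.le
  exact of_decide_eq_true h1

lemma arr2 : IsArrangement (B2 K) := by
  refine ⟨B2_ne, fun i j h => ?_⟩
  have h1 := (le2_iff (K := K) (some (some i)) (some (some j))).1 h.le
  exact of_decide_eq_true h1

lemma eval_pderiv_qq (w : Fin 3 → K) (j : Fin 3) : eval w (pderiv j (qq K)) = 2 * w j := by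
  have h := der_qq (K := K) (pderiv j)
  rw [h]
  fin_cases j <;> simp [pderiv_X, Pi.single_apply]

lemma nondeg_of {W : Submodule K (Fin 3 → K)}
    (h : ∀ w ∈ W, (∀ u ∈ W, ∑ j, u j * w j = 0) → w = 0) : NonDegenerateOn (qq K) W := by
  intro w hw hu
  apply h w hw
  intro u huW
  have h1 := hu u huW
  simp only [eval_pderiv_qq] at h1
  have h2 : 2 * ∑ j, u j * w j = 0 := by
    rw [← h1, Finset.mul_sum]
    exact Finset.sum_congr rfl fun j _ => by ring
  exact (mul_eq_zero.1 h2).resolve_left two_ne_zero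

lemma generic6 : IsGeneric (A6 K) 2 (qq K) := by
  refine ⟨qq_hom, fun W hW => ?_⟩
  obtain ⟨x, rfl⟩ := wf_surj W hW
  apply nondeg_of
  match x with
  | none =>
    intro w _ h
    funext i
    have h1 := h (Pi.single i 1) trivial
    simpa [Pi.single_apply] using h1
  | some none =>
    intro w hw _
    exact hw
  | some (some (Sum.inl i)) =>
    intro w hw h
    have hw' : w ∈ hyperplane (A6 K i) := hw
    rw [mem_hyperplane] at hw'
    -- `w` is proportional to the normal vector
    have h1 : ∀ p q : Fin 3, A6 K i q * w p = A6 K i p * w q := by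
      intro p q
      have h2 : (Pi.single p (A6 K i q) - Pi.single q (A6 K i p) : Fin 3 → K) ∈
          hyperplane (A6 K i) := by
        rw [mem_hyperplane]
        simp only [Pi.sub_apply, mul_sub, Finset.sum_sub_distrib, Pi.single_apply, mul_ite,
          mul_zero, Finset.sum_ite_eq', Finset.mem_univ, if_true]
        ring
      have h3 := h _ h2
      simp only [Pi.sub_apply, sub_mul, Finset.sum_sub_distrib, Pi.single_apply, ite_mul,
          zero_mul, Finset.sum_ite_eq', Finset.mem_univ, if_true] at h3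
      linear_combination h3
    have h4 : ∀ i : Fin 6, (M6 i 0) * (M6 i 0) + (M6 i 1) * (M6 i 1) + (M6 i 2) * (M6 i 2) ≠ 0 := by
      decide
    have h5 : A6 K i 0 * A6 K i 0 + A6 K i 1 * A6 K i 1 + A6 K i 2 * A6 K i 2 ≠ 0 := by
      simp only [A6_eq]
      exact_mod_cast h4 i
    rw [Fin.sum_univ_three] at hw'
    funext j
    have h6 : (A6 K i 0 * A6 K i 0 + A6 K i 1 * A6 K i 1 + A6 K i 2 * A6 K i 2) * w j = 0 := by
      linear_combination A6 K i j * hw' + A6 K i 0 * h1 j 0 + A6 K i 1 * h1 j 1 +
        A6 K i 2 * h1 j 2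
    exact (mul_eq_zero.1 h6).resolve_left h5
  | some (some (Sum.inr k)) =>
    intro w hw h
    obtain ⟨c, rfl⟩ := Submodule.mem_span_singleton.1 hw
    have h1 := h (vk K k) (Submodule.mem_span_singleton_self _)
    have h4 : ∀ k : Fin 8, (V6 k 0) * (V6 k 0) + (V6 k 1) * (V6 k 1) + (V6 k 2) * (V6 k 2) ≠ 0 := by
      decide
    have h5 : vk K k 0 * vk K k 0 + vk K k 1 * vk K k 1 + vk K k 2 * vk K k 2 ≠ 0 := by
      simp only [vk]
      exact_mod_cast h4 k
    rw [Fin.sum_univ_three] at h1
    simp only [Pi.smul_apply, smul_eq_mul] at h1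
    have h6 : c * (vk K k 0 * vk K k 0 + vk K k 1 * vk K k 1 + vk K k 2 * vk K k 2) = 0 := by
      linear_combination h1
    rw [(mul_eq_zero.1 h6).resolve_right h5, zero_smul]

/-- the parametrization `(x, y) ↦ (x, y, 0)` of the plane `z = 0` -/
def ee (K : Type) [Field K] : (Fin 2 → K) →ₗ[K] (Fin 3 → K) where
  toFun v := ![v 0, v 1, 0]
  map_add' v w := by
    funext j
    fin_cases j <;> simp
  map_smul' c v := by
    funext j
    fin_cases j <;> simp

lemma ee_apply (v : Fin 2 → K) : ee K v = ![v 0, v 1, 0] := rfl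

lemma comap6 (i : Fin 6) (v : Fin 2 → K) : v ∈ (hyperplane (A6 K i)).comap (ee K) ↔
    A6 K i 0 * v 0 + A6 K i 1 * v 1 = 0 := by
  rw [Submodule.mem_comap, mem_hyperplane, Fin.sum_univ_three, ee_apply]
  simp

lemma restriction6 : IsRestriction (A6 K) 0 (ee K) (B2 K) where
  injective := by
    intro v w h
    rw [ee_apply, ee_apply] at h
    funext j
    fin_cases j
    · exact congrFun h 0
    · exact congrFun h 1
  range_eq := by
    ext x
    rw [LinearMap.mem_range, mem_hyperplane, Fin.sum_univ_three]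
    have e0 : A6 K 0 0 = 0 := rfl
    have e1 : A6 K 0 1 = 0 := rfl
    have e2 : A6 K 0 2 = 1 := rfl
    rw [e0, e1, e2]
    constructor
    · rintro ⟨v, rfl⟩
      rw [ee_apply]
      simp
    · intro h
      refine ⟨![x 0, x 1], ?_⟩
      rw [ee_apply]
      funext j
      fin_cases j
      · rfl
      · rfl
      · change (0 : K) = x 2
        linear_combination -h
  arrangement := arr2
  planes := by
    have hx : ∀ i : Fin 6, i = 1 ∨ i = 2 ∨ i = 3 →
        (hyperplane (A6 K i)).comap (ee K) = hyperplane (B2 K 0) := by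
      intro i hi
      ext v
      rw [comap6, mem_hB2]
      rcases hi with rfl | rfl | rfl
      · change (1 : K) * v 0 + 0 * v 1 = 0 ↔ _
        rw [one_mul, zero_mul, add_zero]
      · change (1 : K) * v 0 + 0 * v 1 = 0 ↔ _
        rw [one_mul, zero_mul, add_zero]
      · change (1 : K) * v 0 + 0 * v 1 = 0 ↔ _
        rw [one_mul, zero_mul, add_zero]
    have hy : ∀ i : Fin 6, i = 4 ∨ i = 5 →
        (hyperplane (A6 K i)).comap (ee K) = hyperplane (B2 K 1) := by
      intro i hi
      ext v
      rw [comap6, mem_hB2]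
      rcases hi with rfl | rfl
      · change (0 : K) * v 0 + 1 * v 1 = 0 ↔ _
        rw [one_mul, zero_mul, zero_add]
      · change (0 : K) * v 0 + 1 * v 1 = 0 ↔ _
        rw [one_mul, zero_mul, zero_add]
    intro W
    constructor
    · rintro ⟨j, rfl⟩
      fin_cases j
      · exact ⟨1, by decide, hx 1 (Or.inl rfl)⟩
      · exact ⟨4, by decide, hy 4 (Or.inl rfl)⟩
    · rintro ⟨i, hi, rfl⟩
      have h : (i = 1 ∨ i = 2 ∨ i = 3) ∨ (i = 4 ∨ i = 5) := by
        revert hi
        revert i
        decide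
      rcases h with h | h
      · exact ⟨0, (hx i h).symm⟩
      · exact ⟨1, (hy i h).symm⟩

lemma restrict_qq : restrictPoly (ee K) (qq K) = q2 K := by
  have h : ∀ j : Fin 3, (aeval (fun j => ∑ k, C (ee K (Pi.single k 1) j) * X k) (X j : S3 K) :
      MvPolynomial (Fin 2) K) = (![X 0, X 1, 0] : Fin 3 → MvPolynomial (Fin 2) K) j := by
    intro j
    rw [aeval_X, Fin.sum_univ_two, ee_apply, ee_apply]
    fin_cases j <;> simp
  unfold restrictPoly qq q2
  rw [map_add, map_add, map_pow, map_pow, map_pow, h, h, h]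
  change X 0 ^ 2 + X 1 ^ 2 + (0 : MvPolynomial (Fin 2) K) ^ 2 = _
  ring

lemma one_sub_X_ne : (1 - PowerSeries.X : PowerSeries ℚ) ≠ 0 := by
  intro h
  have := congrArg (PowerSeries.coeff 0) h
  simp at this

/-- the Hilbert series of the Solomon-Terao algebra -/
lemma hilbert6 : IsHilbertSeries (A6 K) (qq K) ((1 + Polynomial.X) *
    (1 + Polynomial.X + Polynomial.X ^ 2) *
    (1 + Polynomial.X + Polynomial.X ^ 2 + Polynomial.X ^ 3)) := by
  intro i
  rw [stIdeal_A6]
  have h1 : (((1 + Polynomial.X) * (1 + Polynomial.X + Polynomial.X ^ 2) *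
    (1 + Polynomial.X + Polynomial.X ^ 2 + Polynomial.X ^ 3) : Polynomial ℚ) : PowerSeries ℚ) =
      HS (JJ K) := by
    apply mul_right_cancel₀ (pow_ne_zero 3 one_sub_X_ne)
    rw [HS_JJ]
    push_cast
    ring
  rw [← Polynomial.coeff_coe, h1, HS, PowerSeries.coeff_mk]

lemma hilbert2 : IsHilbertSeries (B2 K) (q2 K) ((1 + Polynomial.X) * (1 + Polynomial.X)) := by
  intro i
  rw [stIdeal_B2]
  have h1 : (((1 + Polynomial.X) * (1 + Polynomial.X) : Polynomial ℚ) : PowerSeries ℚ) =
      HS (J2 K) := by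
    apply mul_right_cancel₀ (pow_ne_zero 2 one_sub_X_ne)
    rw [HS_J2]
    push_cast
    ring
  rw [← Polynomial.coeff_coe, h1, HS, PowerSeries.coeff_mk]

end

/-- Over every algebraically closed field of characteristic zero there are an arrangement `A` in
`K^3`, a plane `H` of `A` and `η ∈ U_2(A)` such that the Hilbert series of `ST(A^H, η|_H)` divides
that of `ST(A, η)`, but the Poincare polynomial of `A^H` does not divide that of `A`. -/
theorem result (K : Type) [Field K] [IsAlgClosed K] [CharZero K] :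
    ∃ (A : Fin 6 → Fin 3 → K) (i₀ : Fin 6) (e : (Fin 2 → K) →ₗ[K] (Fin 3 → K))
      (B : Fin 2 → Fin 2 → K) (η : MvPolynomial (Fin 3) K) (hA hB pA pB : Polynomial ℚ),
      IsArrangement A ∧ IsRestriction A i₀ e B ∧ IsGeneric A 2 η ∧
      IsHilbertSeries A η hA ∧ IsHilbertSeries B (restrictPoly e η) hB ∧
      IsPoincare A pA ∧ IsPoincare B pB ∧ hB ∣ hA ∧ ¬ pB ∣ pA := by
  refine ⟨A6 K, 0, ee K, B2 K, qq K, _, _, _, _, arr6, restriction6, generic6, hilbert6,
    by rw [restrict_qq]; exact hilbert2, poincare6, poincare2, ?_, ?_⟩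
  · exact ⟨(1 + Polynomial.X + Polynomial.X ^ 2) * (1 + Polynomial.X ^ 2), by ring⟩
  · rintro ⟨q, hq⟩
    have h1 : (1 + Polynomial.X : Polynomial ℚ) * ((1 + 2 * Polynomial.X) *
        (1 + 3 * Polynomial.X)) = (1 + Polynomial.X) * ((1 + Polynomial.X) * q) := by
      linear_combination hq
    have h0 : (1 + Polynomial.X : Polynomial ℚ) ≠ 0 := by
      intro h
      have := congrArg (Polynomial.eval 0) h
      simp at this
    have h2 := mul_left_cancel₀ h0 h1
    have h3 := congrArg (Polynomial.eval (-1)) h2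
    simp at h3
    norm_num at h3

end Pool.Agent.Results.MP_1e7c4a_ag.HilbertWithoutPoincare
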